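import Pool.Agent.V1192.UOE

/-!
# MP_09b497_an, Q2

For every infinite group of bounded exponent, the convolution algebra `ℓ¹(G)` does not have
uniformly open multiplication.
-/

namespace Pool.Agent.Results.MP_09b497_an.NotUniform

open Pool.Agent.V1192

/-- For every infinite group `G` of bounded exponent, `ℓ¹(G)` does not have uniformly open
multiplication. -/
theorem result (G : Type) [Group G] [Infinite G] (n : ℕ) (hn : 1 ≤ n)
    (hG : ∀ g : G, g ^ n = 1) : ¬ UOE.UnifOpenConv G :=
  fun h => UOC.not_unif G n hn hG (UOE.unif_of_conv h)

end Pool.Agent.Results.MP_09b497_an.NotUniform
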