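import Pool.Agent.V1192.UOE

/-!
# MP_09b497_an, Q1

If convolution on `ℓ¹(G)` is an open map then every element of finite order of `G` is central; so a
group of bounded exponent with open convolution is abelian.
-/

open Filter Topology Pool.Agent.V1192.GA Metric

namespace Pool.Agent.Results.MP_09b497_an.OpenAbelian

open Pool.Agent.V1192

/-- Pointwise openness of multiplication. -/
def OpenMul (A : Type) [NormedRing A] : Prop :=
  ∀ a b : A, ∀ ε > 0, ∃ δ > 0, ∀ w ∈ ball (a * b) δ, ∃ x ∈ ball a ε, ∃ y ∈ ball b ε, x * y = w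

section Central

variable {A : Type} [NormedRing A] [NormedAlgebra ℂ A] [CompleteSpace A]

theorem idem_half (hA : OpenMul A) (e : A) (he : e * e = e) (t : A) :
    (1 - e) * t * e = 0 := by
  set f : A := 1 - e with hf
  have hff : f * f = f := UO.compl_idem e he
  have hef : e * f = 0 := by rw [hf, mul_sub, mul_one, he, sub_self]
  have hfe : f * e = 0 := by rw [hf, sub_mul, one_mul, he, sub_self]
  have h1 : e + f = 1 := by rw [hf]; abel
  set K : ℝ := ‖e‖ * ‖e‖ + ‖f‖ * ‖f‖ + 1 with hK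
  have hK0 : 0 < K := by positivity
  obtain ⟨δ, hδ, hopen⟩ := hA e f (1 / K) (by positivity)
  -- scale the element `f t e`
  set h0 : A := f * t * e with hh0
  obtain ⟨c, hc0, hc⟩ : ∃ c : ℂ, c ≠ 0 ∧ ‖c • h0‖ < δ := by
    refine ⟨((δ / (‖h0‖ + 1) / 2 : ℝ) : ℂ), ?_, ?_⟩
    · have : δ / (‖h0‖ + 1) / 2 ≠ 0 := by positivity
      exact_mod_cast this
    · rw [norm_smul, Complex.norm_real, Real.norm_of_nonneg (by positivity)]
      have h2 : (0 : ℝ) < ‖h0‖ + 1 := by positivity
      have h3 : δ / (‖h0‖ + 1) / 2 * ‖h0‖ ≤ δ / 2 := by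
        rw [div_div, div_mul_eq_mul_div, div_le_div_iff₀ (by positivity) (by positivity)]
        nlinarith [norm_nonneg h0]
      linarith
  obtain ⟨x, hx, y, hy, hxy⟩ := hopen (c • h0) (by
    rw [hef, mem_ball_zero_iff]; exact hc)
  rw [mem_ball, dist_eq_norm] at hx hy
  have hu : IsUnit (e * x * e + f) := by
    have h2 : e * x * e + f = 1 - e * (e - x) * e := by
      rw [hf]
      have : e * (e - x) * e = e - e * x * e := by
        calc e * (e - x) * e = e * e * e - e * x * e := by noncomm_ring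
          _ = _ := by rw [he, he]
      rw [this]; abel
    rw [h2]
    have h3 : ‖e * (e - x) * e‖ < 1 := by
      calc ‖e * (e - x) * e‖ ≤ ‖e‖ * ‖e - x‖ * ‖e‖ :=
            (norm_mul_le _ _).trans (mul_le_mul_of_nonneg_right (norm_mul_le _ _) (norm_nonneg _))
        _ = (‖e‖ * ‖e‖) * ‖x - e‖ := by rw [norm_sub_rev e x]; ring
        _ ≤ (‖e‖ * ‖e‖) * (1 / K) := mul_le_mul_of_nonneg_left hx.le (by positivity)
        _ < 1 := by
          rw [mul_one_div, div_lt_one hK0, hK]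
          nlinarith [mul_self_nonneg ‖f‖]
    exact isUnit_one_sub_of_norm_lt_one h3
  have hw : IsUnit (f * y * f + e) := by
    have h2 : f * y * f + e = 1 - f * (f - y) * f := by
      have : f * (f - y) * f = f - f * y * f := by
        calc f * (f - y) * f = f * f * f - f * y * f := by noncomm_ring
          _ = _ := by rw [hff, hff]
      rw [this, ← h1]; abel
    rw [h2]
    have h3 : ‖f * (f - y) * f‖ < 1 := by
      calc ‖f * (f - y) * f‖ ≤ ‖f‖ * ‖f - y‖ * ‖f‖ :=
            (norm_mul_le _ _).trans (mul_le_mul_of_nonneg_right (norm_mul_le _ _) (norm_nonneg _))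
        _ = (‖f‖ * ‖f‖) * ‖y - f‖ := by rw [norm_sub_rev f y]; ring
        _ ≤ (‖f‖ * ‖f‖) * (1 / K) := mul_le_mul_of_nonneg_left hy.le (by positivity)
        _ < 1 := by
          rw [mul_one_div, div_lt_one hK0, hK]
          nlinarith [mul_self_nonneg ‖e‖]
    exact isUnit_one_sub_of_norm_lt_one h3
  have h2 := UO.peirce_core e f x y (c • h0) he hff hef hfe h1 hxy (by
    rw [mul_smul_comm, smul_mul_assoc, hh0]
    congr 1
    calc f * (f * t * e) * e = (f * f) * t * (e * e) := by noncomm_ring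
      _ = _ := by rw [hff, he]) hu hw
  exact (smul_eq_zero.1 h2).resolve_left hc0

/-- In an algebra with open multiplication idempotents are central. -/
theorem idem_central (hA : OpenMul A) (e : A) (he : e * e = e) (t : A) : e * t = t * e := by
  have h1 := idem_half hA e he t
  have h2 := idem_half hA (1 - e) (UO.compl_idem e he) t
  have h3 : t * e = e * t * e := by
    have : (1 - e) * t * e = t * e - e * t * e := by noncomm_ring
    rw [this] at h1
    exact sub_eq_zero.1 h1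
  have h4 : e * t = e * t * e := by
    have : (1 - (1 - e)) * t * (1 - e) = e * t - e * t * e := by noncomm_ring
    rw [this] at h2
    exact sub_eq_zero.1 h2
  rw [h3, ← h4]

end Central

theorem norm_of_open {G : Type} [Group G]
    (h : IsOpenMap (fun p : lp (fun _ : G => ℂ) 1 × lp (fun _ : G => ℂ) 1 =>
      UOE.conv p.1 p.2)) (a b : lp (fun _ : G => ℂ) 1) (ε : ℝ) (hε : 0 < ε) :
    ∃ δ > 0, ∀ w : lp (fun _ : G => ℂ) 1, ‖w - UOE.conv a b‖ < δ →
      ∃ x y : lp (fun _ : G => ℂ) 1, ‖x - a‖ < ε ∧ ‖y - b‖ < ε ∧ UOE.conv x y = w := by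
  have h1 : IsOpen ((fun p : lp (fun _ : G => ℂ) 1 × lp (fun _ : G => ℂ) 1 =>
      UOE.conv p.1 p.2) '' (ball a ε ×ˢ ball b ε)) :=
    h _ (isOpen_ball.prod isOpen_ball)
  obtain ⟨δ, hδ, H⟩ := Metric.isOpen_iff.mp h1 (UOE.conv a b)
    ⟨(a, b), ⟨mem_ball_self hε, mem_ball_self hε⟩, rfl⟩
  refine ⟨δ, hδ, fun w hw => ?_⟩
  obtain ⟨⟨x, y⟩, ⟨hx, hy⟩, hxy⟩ := H (mem_ball_iff_norm.mpr hw)
  exact ⟨x, y, mem_ball_iff_norm.mp hx, mem_ball_iff_norm.mp hy, hxy⟩

theorem open_of_conv {G : Type} [Group G]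
    (h : IsOpenMap (fun p : lp (fun _ : G => ℂ) 1 × lp (fun _ : G => ℂ) 1 =>
      UOE.conv p.1 p.2)) : OpenMul (GA G) := by
  intro a b ε hε
  obtain ⟨δ, hδ, H⟩ := norm_of_open h a b ε hε
  refine ⟨δ, hδ, fun w hw => ?_⟩
  have hw1 : ‖w - a * b‖ < δ := mem_ball_iff_norm.mp hw
  have e := UOE.conv_eq a b
  obtain ⟨x, y, hx, hy, hxy⟩ := H w ((congrArg (fun t : lp (fun _ : G => ℂ) 1 =>
    ‖(show lp (fun _ : G => ℂ) 1 from w) - t‖) e).trans_lt hw1)
  have hx1 : ‖(show GA G from x) - a‖ < ε := hx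
  have hy1 : ‖(show GA G from y) - b‖ < ε := hy
  exact ⟨x, mem_ball_iff_norm.mpr hx1, y, mem_ball_iff_norm.mpr hy1,
    (UOE.conv_eq (G := G) x y).symm.trans hxy⟩

/-- If convolution `ℓ¹(G) × ℓ¹(G) → ℓ¹(G)` is an open map, then every element of finite order of
`G` is central; in particular `G` is abelian if it has bounded exponent. -/
theorem result (G : Type) [Group G]
    (h : IsOpenMap (fun p : lp (fun _ : G => ℂ) 1 × lp (fun _ : G => ℂ) 1 =>
      UOE.conv p.1 p.2)) :
    (∀ x : G, IsOfFinOrder x → ∀ y : G, x * y = y * x) ∧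
      ((∃ n : ℕ, 1 ≤ n ∧ ∀ g : G, g ^ n = 1) → ∀ x y : G, x * y = y * x) := by
  have key : ∀ x : G, IsOfFinOrder x → ∀ y : G, x * y = y * x := fun x hx y =>
    (UO.comm_of_central (idem_central (open_of_conv h)) x y
      (orderOf_ne_zero_iff.mpr hx)).symm
  refine ⟨key, ?_⟩
  rintro ⟨n, hn, hG⟩ x y
  exact key x (isOfFinOrder_iff_pow_eq_one.mpr ⟨n, hn, hG x⟩) y

end Pool.Agent.Results.MP_09b497_an.OpenAbelian
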